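import Pool.Agent.D0H15.SF.Dsc

/-!
# Project SF, module CAS
-/

set_option autoImplicit false

open Polynomial NumberField Module
open scoped Pointwise

namespace Pool.Agent.D0H15.SF

open Pool.Agent.D0H41.SF

section Core

variable {A K : Type} [Fintype A] [DecidableEq A] [Field K]

/-- the vectors which vanish on `I` -/
def Z (I : Finset A) : Submodule K (A → K) where
  carrier := {v | ∀ i ∈ I, v i = 0}
  add_mem' := by
    intro a b ha hb i hi
    rw [Pi.add_apply, ha i hi, hb i hi, add_zero]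
  zero_mem' := fun _ _ => rfl
  smul_mem' := by
    intro c a ha i hi
    rw [Pi.smul_apply, ha i hi, smul_zero]

/-- some set of `k` coordinates cuts the dimension down by `k` -/
theorem exists_small (W : Submodule K (A → K)) (D : ℕ) (hD : finrank K W ≤ D)
    (hDA : D ≤ Fintype.card A) :
    ∀ k ≤ D, ∃ I : Finset A, I.card = k ∧ finrank K (W ⊓ Z I : Submodule K (A → K)) ≤ D - k := by
  intro k
  induction k with
  | zero =>
    intro _
    refine ⟨∅, rfl, ?_⟩
    exact (Submodule.finrank_mono inf_le_left).trans hD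
  | succ k ih =>
    intro hk
    obtain ⟨I, hI, hr⟩ := ih (by omega)
    by_cases h0 : (W ⊓ Z I : Submodule K (A → K)) = ⊥
    · have hlt : I.card < (Finset.univ : Finset A).card := by
        rw [Finset.card_univ, hI]; omega
      obtain ⟨i, -, hi⟩ := Finset.exists_mem_notMem_of_card_lt_card hlt
      refine ⟨insert i I, by rw [Finset.card_insert_of_notMem hi, hI], ?_⟩
      have h1 : (W ⊓ Z (insert i I) : Submodule K (A → K)) ≤ W ⊓ Z I := by
        intro v hv
        exact ⟨hv.1, fun j hj => hv.2 j (Finset.mem_insert_of_mem hj)⟩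
      rw [h0, le_bot_iff] at h1
      rw [h1, finrank_bot]
      omega
    · obtain ⟨v, hv, hv0⟩ := (Submodule.ne_bot_iff _).1 h0
      obtain ⟨i, hi⟩ : ∃ i, v i ≠ 0 := by
        by_contra hcon
        push Not at hcon
        exact hv0 (funext hcon)
      have hiI : i ∉ I := fun h => hi (hv.2 i h)
      refine ⟨insert i I, by rw [Finset.card_insert_of_notMem hiI, hI], ?_⟩
      have h1 : (W ⊓ Z (insert i I) : Submodule K (A → K)) < W ⊓ Z I := by
        refine lt_of_le_of_ne ?_ ?_
        · intro v hv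
          exact ⟨hv.1, fun j hj => hv.2 j (Finset.mem_insert_of_mem hj)⟩
        · intro h
          rw [← h] at hv
          exact hi (hv.2 i (Finset.mem_insert_self i I))
      have h2 := Submodule.finrank_lt_finrank_of_lt h1
      omega

/-- separation of a point from `J` points -/
theorem sep (W : Submodule K (A → K)) (J : ℕ) (hdim : finrank K W = J + 1)
    (hU : ∀ I : Finset A, I.card = J + 1 → ∀ v ∈ W, (∀ i ∈ I, v i = 0) → v = 0)
    (I : Finset A) (hI : I.card ≤ J) (i0 : A) (hi0 : i0 ∉ I) :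
    ∃ v ∈ W, (∀ i ∈ I, v i = 0) ∧ v i0 ≠ 0 := by
  have hA : J + 1 ≤ Fintype.card A := by
    rw [← hdim, ← Module.finrank_fintype_fun_eq_card K (η := A)]
    exact Submodule.finrank_le W
  have h1 : I ⊆ Finset.univ.erase i0 := by
    intro i hi
    rw [Finset.mem_erase]
    exact ⟨fun h => hi0 (h ▸ hi), Finset.mem_univ i⟩
  obtain ⟨I', hII', hI'e, hI'c⟩ := Finset.exists_subsuperset_card_eq h1 hI (by
    rw [Finset.card_erase_of_mem (Finset.mem_univ i0), Finset.card_univ]; omega)
  -- a nonzero vector of `W` vanishing on `I'`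
  let ev : W →ₗ[K] (I' → K) :=
    { toFun := fun v i => v.1 i
      map_add' := fun _ _ => rfl
      map_smul' := fun _ _ => rfl }
  have h2 : ¬ Function.Injective ev := by
    intro hinj
    have h3 := LinearMap.finrank_le_finrank_of_injective hinj
    rw [hdim, Module.finrank_fintype_fun_eq_card, Fintype.card_coe, hI'c] at h3
    omega
  rw [← LinearMap.ker_eq_bot, ← ne_eq, Submodule.ne_bot_iff] at h2
  obtain ⟨v, hv, hv0⟩ := h2
  have hvI : ∀ i ∈ I', v.1 i = 0 := fun i hi => congrFun (LinearMap.mem_ker.1 hv) ⟨i, hi⟩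
  refine ⟨v.1, v.2, fun i hi => hvI i (hII' hi), fun h => hv0 ?_⟩
  have hi0' : i0 ∉ I' := fun h => (Finset.mem_erase.1 (hI'e h)).1 rfl
  have h4 := hU (insert i0 I') (by rw [Finset.card_insert_of_notMem hi0', hI'c]) v.1 v.2 (by
    intro i hi
    rcases Finset.mem_insert.1 hi with rfl | hi
    · exact h
    · exact hvI i hi)
  exact Subtype.ext h4

/-- products of `c` vectors separate a point from `c J` points -/
theorem sep_pow (W : Submodule K (A → K)) (J : ℕ)
    (hsep : ∀ (I : Finset A), I.card ≤ J → ∀ i0 ∉ I, ∃ v ∈ W, (∀ i ∈ I, v i = 0) ∧ v i0 ≠ 0)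
    (c : ℕ) : ∀ (I : Finset A), I.card ≤ c * J → ∀ i0 ∉ I,
      ∃ v ∈ W ^ c, (∀ i ∈ I, v i = 0) ∧ v i0 ≠ 0 := by
  induction c with
  | zero =>
    intro I hI i0 hi0
    have : I = ∅ := Finset.card_eq_zero.1 (by omega)
    subst this
    refine ⟨1, ?_, by simp, by simp⟩
    rw [pow_zero, Submodule.one_eq_span]
    exact Submodule.mem_span_singleton_self 1
  | succ c ih =>
    intro I hI i0 hi0
    obtain ⟨I1, hI1, hI1c⟩ : ∃ I1 ⊆ I, I1.card = min I.card J :=
      Finset.exists_subset_card_eq (min_le_left _ _)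
    obtain ⟨v, hv, hv1, hv2⟩ := hsep I1 (hI1c ▸ min_le_right _ _) i0 (fun h => hi0 (hI1 h))
    obtain ⟨u, hu, hu1, hu2⟩ := ih (I \ I1) (by
      rw [Finset.card_sdiff_of_subset hI1, hI1c]
      have : (c + 1) * J = c * J + J := by ring
      omega) i0 (fun h => hi0 (Finset.mem_sdiff.1 h).1)
    refine ⟨u * v, ?_, ?_, mul_ne_zero hu2 hv2⟩
    · rw [pow_succ]
      exact Submodule.mul_mem_mul hu hv
    · intro i hi
      by_cases h : i ∈ I1
      · rw [Pi.mul_apply, hv1 i h, mul_zero]
      · rw [Pi.mul_apply, hu1 i (Finset.mem_sdiff.2 ⟨hi, h⟩), zero_mul]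

/-- if all points can be separated from the others the power is everything -/
theorem pow_top (W : Submodule K (A → K)) (c : ℕ)
    (hsep : ∀ i0 : A, ∃ v ∈ W ^ c, (∀ i ≠ i0, v i = 0) ∧ v i0 ≠ 0) : W ^ c = ⊤ := by
  rw [eq_top_iff]
  intro x _
  have h1 : x = ∑ i, Pi.single i (x i) := (Finset.univ_sum_single x).symm
  rw [h1]
  refine Submodule.sum_mem _ fun i _ => ?_
  obtain ⟨v, hv, hv1, hv2⟩ := hsep i
  have h2 : (Pi.single i (x i) : A → K) = (x i / v i) • v := by
    funext j
    by_cases h : j = i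
    · subst h
      rw [Pi.single_eq_same, Pi.smul_apply, smul_eq_mul, div_mul_cancel₀ _ hv2]
    · rw [Pi.single_eq_of_ne h, Pi.smul_apply, hv1 j h, smul_zero]
  rw [h2]
  exact Submodule.smul_mem _ _ hv

end Core

/-- the vector of the conjugates -/
noncomputable def vec (L : IntermediateField ℚ Qb) : L →ₐ[ℚ] ((L →ₐ[ℚ] Qb) → Qb) where
  toFun x φ := φ x
  map_one' := by funext φ; simp
  map_mul' := by intro x y; funext φ; simp
  map_zero' := by funext φ; simp
  map_add' := by intro x y; funext φ; simp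
  commutes' := by intro r; funext φ; simp

theorem vec_apply (L : IntermediateField ℚ Qb) (x : L) (φ : L →ₐ[ℚ] Qb) : vec L x φ = φ x := rfl

/-- elements independent over `ℚ` have vectors of conjugates independent over `Qb` -/
theorem vec_indep (L : IntermediateField ℚ Qb) [FiniteDimensional ℚ L] {ι : Type} (x : ι → L)
    (hx : LinearIndependent ℚ x) : LinearIndependent Qb (fun i => vec L (x i)) := by
  classical
  let b := Module.Basis.extend hx.linearIndepOn_id
  have : Finite (hx.linearIndepOn_id.extend (Set.subset_univ (Set.range x))) :=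
    Module.Finite.finite_basis b
  let _ : Fintype (hx.linearIndepOn_id.extend (Set.subset_univ (Set.range x))) :=
    Fintype.ofFinite _
  have hcard : Fintype.card (hx.linearIndepOn_id.extend (Set.subset_univ (Set.range x))) =
      Fintype.card (L →ₐ[ℚ] Qb) := by
    rw [AlgHom.card, Module.finrank_eq_card_basis b]
  obtain ⟨e⟩ : Nonempty ((hx.linearIndepOn_id.extend (Set.subset_univ (Set.range x))) ≃
      (L →ₐ[ℚ] Qb)) := ⟨Fintype.equivOfCardEq hcard⟩
  have h1 := Algebra.discr_eq_det_embeddingsMatrixReindex_pow_two ℚ Qb (b : _ → L) e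
  have h2 : (Algebra.embeddingsMatrixReindex ℚ Qb (b : _ → L) e).det ≠ 0 := by
    intro h
    rw [h] at h1
    have h3 := Algebra.discr_not_zero_of_basis ℚ b
    rw [zero_pow two_ne_zero] at h1
    exact h3 ((map_eq_zero _).1 h1)
  have h3 := Matrix.linearIndependent_rows_of_det_ne_zero h2
  have h4 : LinearIndependent Qb (fun k => vec L (b k)) := by
    have h5 := h3.map' (LinearMap.funLeft Qb Qb e.symm) (by
      rw [LinearMap.ker_eq_bot]
      exact LinearMap.funLeft_injective_of_surjective Qb Qb _ e.symm.surjective)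
    have h6 : (fun k => vec L (b k)) = (LinearMap.funLeft Qb Qb e.symm) ∘
        (fun k => Algebra.embeddingsMatrixReindex ℚ Qb (b : _ → L) e k) := by
      funext k
      funext φ
      simp [Algebra.embeddingsMatrixReindex, Algebra.embeddingsMatrix, vec_apply,
        LinearMap.funLeft_apply]
    rw [h6]
    exact h5
  let g : ι → (hx.linearIndepOn_id.extend (Set.subset_univ (Set.range x))) := fun i =>
    ⟨x i, hx.linearIndepOn_id.subset_extend _ ⟨i, rfl⟩⟩
  have hg : Function.Injective g := by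
    intro i j hij
    exact hx.injective (congrArg Subtype.val hij)
  have h5 := h4.comp g hg
  have h6 : (fun i => vec L (x i)) = (fun k => vec L (b k)) ∘ g := by
    funext i
    simp only [Function.comp_apply]
    rw [Module.Basis.extend_apply_self]
  rw [h6]
  exact h5

/-- the conjugate of a vector of conjugates -/
theorem conj_mem (L : IntermediateField ℚ Qb) {ι : Type} (x : ι → L) (σ : Qb ≃ₐ[ℚ] Qb)
    (v : (L →ₐ[ℚ] Qb) → Qb) (hv : v ∈ Submodule.span Qb (Set.range fun i => vec L (x i))) :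
    (fun φ : L →ₐ[ℚ] Qb => σ (v (σ.symm.toAlgHom.comp φ))) ∈
      Submodule.span Qb (Set.range fun i => vec L (x i)) := by
  induction hv using Submodule.span_induction with
  | mem v hv =>
    obtain ⟨i, rfl⟩ := hv
    refine Submodule.subset_span ⟨i, ?_⟩
    funext φ
    simp [vec_apply]
  | zero =>
    have : (fun φ : L →ₐ[ℚ] Qb => σ ((0 : (L →ₐ[ℚ] Qb) → Qb) (σ.symm.toAlgHom.comp φ))) = 0 := by
      funext φ
      simp
    rw [this]
    exact Submodule.zero_mem _
  | add u v _ _ hu hv =>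
    have : (fun φ : L →ₐ[ℚ] Qb => σ ((u + v) (σ.symm.toAlgHom.comp φ))) =
        (fun φ : L →ₐ[ℚ] Qb => σ (u (σ.symm.toAlgHom.comp φ))) +
          (fun φ : L →ₐ[ℚ] Qb => σ (v (σ.symm.toAlgHom.comp φ))) := by
      funext φ
      simp
    rw [this]
    exact Submodule.add_mem _ hu hv
  | smul c v _ hv =>
    have : (fun φ : L →ₐ[ℚ] Qb => σ ((c • v) (σ.symm.toAlgHom.comp φ))) =
        (σ c) • (fun φ : L →ₐ[ℚ] Qb => σ (v (σ.symm.toAlgHom.comp φ))) := by
      funext φ
      simp
    rw [this]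
    exact Submodule.smul_mem _ _ hv

/-- no nonzero vector of a symmetric space of dimension `J + 1` vanishes at `J + 1` points -/
theorem no_vanish (L : IntermediateField ℚ Qb) [FiniteDimensional ℚ L] (hS : Sym L) {J : ℕ}
    (x : Fin (J + 1) → L) (hx : LinearIndependent ℚ x) (I : Finset (L →ₐ[ℚ] Qb))
    (hI : I.card = J + 1) (v : (L →ₐ[ℚ] Qb) → Qb)
    (hv : v ∈ Submodule.span Qb (Set.range fun i => vec L (x i))) (h0 : ∀ i ∈ I, v i = 0) :
    v = 0 := by
  classical
  have hdim : finrank Qb (Submodule.span Qb (Set.range fun i => vec L (x i))) = J + 1 := by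
    rw [finrank_span_eq_card (vec_indep L x hx), Fintype.card_fin]
  have hA : J + 1 ≤ Fintype.card (L →ₐ[ℚ] Qb) := by
    rw [← hdim, ← Module.finrank_fintype_fun_eq_card Qb (η := (L →ₐ[ℚ] Qb))]
    exact Submodule.finrank_le _
  obtain ⟨I2, hI2, hr⟩ := exists_small (Submodule.span Qb (Set.range fun i => vec L (x i)))
    (J + 1) hdim.le hA (J + 1) le_rfl
  have hbot : (Submodule.span Qb (Set.range fun i => vec L (x i)) ⊓ Z I2 :
      Submodule Qb ((L →ₐ[ℚ] Qb) → Qb)) = ⊥ := by
    rw [← Submodule.finrank_eq_zero]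
    omega
  -- a permutation which maps `I` to `I2`
  have e : {x // x ∈ I} ≃ {x // x ∈ I2} := Finset.equivOfCardEq (hI.trans hI2.symm)
  let τ : Equiv.Perm (L →ₐ[ℚ] Qb) := e.extendSubtype
  have hτ : ∀ φ ∈ I, τ φ ∈ I2 := fun φ hφ => e.extendSubtype_mem φ hφ
  have hmap : I.map τ.toEmbedding = I2 := by
    refine Finset.eq_of_subset_of_card_le ?_ ?_
    · intro ψ hψ
      obtain ⟨φ, hφ, rfl⟩ := Finset.mem_map.1 hψ
      exact hτ φ hφ
    · rw [Finset.card_map, hI, hI2]
  obtain ⟨σ, hσ⟩ := hS τ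
  have h1 := conj_mem L x σ v hv
  have h2 : (fun φ : L →ₐ[ℚ] Qb => σ (v (σ.symm.toAlgHom.comp φ))) ∈
      (Submodule.span Qb (Set.range fun i => vec L (x i)) ⊓ Z I2 :
        Submodule Qb ((L →ₐ[ℚ] Qb) → Qb)) := by
    refine ⟨h1, ?_⟩
    intro ψ hψ
    rw [← hmap] at hψ
    obtain ⟨φ, hφ, rfl⟩ := Finset.mem_map.1 hψ
    have h3 : σ.symm.toAlgHom.comp (τ.toEmbedding φ) = φ := by
      change σ.symm.toAlgHom.comp (τ φ) = φ
      rw [hσ]
      ext y
      simp
    simp only [h3, h0 φ hφ, map_zero]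
  rw [hbot, Submodule.mem_bot] at h2
  funext φ
  have h3 := congrFun h2 (σ.toAlgHom.comp φ)
  have h4 : σ.symm.toAlgHom.comp (σ.toAlgHom.comp φ) = φ := by
    ext y
    simp
  simp only [h4, Pi.zero_apply] at h3
  exact (map_eq_zero σ).1 h3

/-- products of `c` small integers -/
theorem pow_small (L : IntermediateField ℚ Qb) (S : Set L) (T : ℝ)
    (hS : ∀ y ∈ S, IsIntegral ℤ y ∧ Siz (y : Qb) T) (c : ℕ) :
    ∀ y ∈ S ^ c, IsIntegral ℤ y ∧ Siz (y : Qb) (T ^ c) := by
  induction c with
  | zero =>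
    intro y hy
    rw [pow_zero, Set.mem_one] at hy
    subst hy
    refine ⟨isIntegral_one, fun φ => ?_⟩
    simp
  | succ c ih =>
    intro y hy
    rw [pow_succ, Set.mem_mul] at hy
    obtain ⟨a, ha, b, hb, rfl⟩ := hy
    obtain ⟨ha1, ha2⟩ := ih a ha
    obtain ⟨hb1, hb2⟩ := hS b hb
    refine ⟨ha1.mul hb1, fun φ => ?_⟩
    have : φ ((a * b : L) : Qb) = φ (a : Qb) * φ (b : Qb) := by
      rw [← map_mul]; rfl
    rw [this, norm_mul, pow_succ]
    exact mul_le_mul (ha2 φ) (hb2 φ) (norm_nonneg _) ((norm_nonneg _).trans (ha2 φ))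

theorem t_CAS : S_CAS := by
  classical
  intro n J c L T w hn hfin hS hJ hnc hT hw hli
  have : FiniteDimensional ℚ L := FiniteDimensional.of_finrank_pos (by omega)
  let x : Fin (J + 1) → L := Fin.cons 1 (fun i => ⟨w i, (hw i).1⟩)
  have hx : LinearIndependent ℚ x := by
    refine LinearIndependent.of_comp L.val.toLinearMap ?_
    have : (L.val.toLinearMap : L → Qb) ∘ x = (Fin.cons 1 w : Fin (J + 1) → Qb) := by
      funext i
      refine Fin.cases ?_ (fun j => ?_) i
      · simp [x]
      · simp [x]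
    rw [this]
    exact hli
  have hxs : ∀ y ∈ Set.range x, IsIntegral ℤ y ∧ Siz (y : Qb) T := by
    rintro y ⟨i, rfl⟩
    refine Fin.cases ?_ (fun j => ?_) i
    · refine ⟨isIntegral_one, fun φ => ?_⟩
      simpa [x] using hT
    · refine ⟨?_, fun φ => ?_⟩
      · have h1 := (hw j).2.1
        have h2 : IsIntegral ℤ ((⟨w j, (hw j).1⟩ : L)) :=
          (isIntegral_algHom_iff (L.val.restrictScalars ℤ) L.val.injective).1 h1
        simpa [x] using h2
      · simpa [x] using (hw j).2.2 φ
  obtain ⟨W, hW⟩ : ∃ W : Submodule Qb ((L →ₐ[ℚ] Qb) → Qb),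
      W = Submodule.span Qb (Set.range fun i => vec L (x i)) := ⟨_, rfl⟩
  have hdim : finrank Qb W = J + 1 := by
    rw [hW, finrank_span_eq_card (vec_indep L x hx), Fintype.card_fin]
  have hcardA : Fintype.card (L →ₐ[ℚ] Qb) = n := by rw [AlgHom.card, hfin]
  have hpow := sep_pow W J (fun I hI i0 hi0 => sep W J hdim
    (fun I hI v hv h0 => no_vanish L hS x hx I hI v (hW ▸ hv) h0) I hI i0 hi0) c
  have htop : W ^ c = ⊤ := by
    refine pow_top W c fun i0 => ?_
    obtain ⟨v, hv, h1, h2⟩ := hpow (Finset.univ.erase i0) (by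
      rw [Finset.card_erase_of_mem (Finset.mem_univ i0), Finset.card_univ, hcardA]
      omega) i0 (Finset.notMem_erase i0 _)
    exact ⟨v, hv, fun i hi => h1 i (Finset.mem_erase.2 ⟨hi, Finset.mem_univ i⟩), h2⟩
  have h3 : W ^ c = Submodule.span Qb (vec L '' ((Set.range x) ^ c)) := by
    rw [hW, Submodule.span_pow]
    congr 1
    rw [Set.image_pow, ← Set.range_comp]
    rfl
  obtain ⟨b, hb1, hb2, hb3⟩ := exists_linearIndependent ℚ ((Set.range x) ^ c)
  have hbfin : b.Finite := hb3.setFinite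
  let _ : Fintype b := hbfin.fintype
  have h4 : Submodule.span Qb (vec L '' b) = ⊤ := by
    rw [eq_top_iff, ← htop, h3, Submodule.span_le]
    rintro _ ⟨y, hy, rfl⟩
    have h5 : y ∈ Submodule.span ℚ b := by
      rw [hb2]
      exact Submodule.subset_span hy
    have h6 : vec L y ∈ Submodule.span ℚ (vec L '' b) := by
      have := Submodule.mem_map_of_mem (f := (vec L).toLinearMap) h5
      rw [Submodule.map_span] at this
      exact this
    exact Submodule.span_subset_span ℚ Qb _ h6
  have hcard : Fintype.card b = finrank ℚ L := by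
    refine le_antisymm hb3.fintype_card_le_finrank ?_
    rw [hfin]
    have h5 : finrank Qb ((L →ₐ[ℚ] Qb) → Qb) = n := by
      rw [Module.finrank_fintype_fun_eq_card, hcardA]
    have h6 : finrank Qb (Submodule.span Qb (vec L '' b)) = n := by
      rw [h4, finrank_top, h5]
    rw [← h6]
    have h7 : (vec L '' b) = Set.range (fun y : b => vec L (y : L)) := by
      rw [Set.image_eq_range]
    rw [h7]
    exact finrank_range_le_card _
  have hne : Nonempty b := by
    rw [← Fintype.card_pos_iff, hcard, hfin]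
    omega
  let B := basisOfLinearIndependentOfCardEqFinrank hb3 hcard
  have hB : ∀ i, B i = (i : L) := fun i => by
    simp [B]
  have h8 := db_of_basis L B (fun i => by
    rw [hB]; exact (pow_small L _ T hxs c _ (hb1 i.2)).1) (fun _ => T ^ c) (fun i => by
    rw [hB]; exact (pow_small L _ T hxs c _ (hb1 i.2)).2)
  rw [Finset.prod_const, Finset.card_univ, hcard, hfin, ← pow_mul, mul_comm c n] at h8
  exact h8

end Pool.Agent.D0H15.SF
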