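import Pool.Agent.D0H41.SF.Stm

/-!
# Project SF: tools for discriminants and embeddings (the first two theorems are copies of the
library theorems of `Pool.Agent.N793.CF.DB`)
-/

set_option autoImplicit false

open Polynomial NumberField Matrix

namespace Pool.Agent.D0H15.SF

open Pool.Agent.D0H41.SF

/-- the discriminant of the field is not larger than that of an integral basis of `L` over `ℚ` -/
theorem discr_le {L : Type} [Field L] [NumberField L] {ι : Type} [Fintype ι] [DecidableEq ι]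
    (b : Module.Basis ι ℚ L) (hb : ∀ i, IsIntegral ℤ (b i)) :
    |((NumberField.discr L : ℤ) : ℚ)| ≤ |Algebra.discr ℚ b| := by
  have hcard : Fintype.card (Module.Free.ChooseBasisIndex ℤ (𝓞 L)) = Fintype.card ι := by
    rw [← Module.finrank_eq_card_basis (integralBasis L), ← Module.finrank_eq_card_basis b]
  obtain ⟨e⟩ : Nonempty (Module.Free.ChooseBasisIndex ℤ (𝓞 L) ≃ ι) := ⟨Fintype.equivOfCardEq hcard⟩
  obtain ⟨BQ, hBQ⟩ : ∃ BQ : Module.Basis ι ℚ L, BQ = (integralBasis L).reindex e := ⟨_, rfl⟩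
  obtain ⟨y, hy⟩ : ∃ y : ι → 𝓞 L, ∀ k, algebraMap (𝓞 L) L (y k) = b k :=
    ⟨fun k => ⟨b k, hb k⟩, fun k => rfl⟩
  obtain ⟨P', hP'⟩ : ∃ P' : Matrix ι ι ℤ, ∀ l k, P' l k = (RingOfIntegers.basis L).repr (y k) (e.symm l) :=
    ⟨Matrix.of fun l k => (RingOfIntegers.basis L).repr (y k) (e.symm l), fun _ _ => rfl⟩
  have hrepr : ∀ k l, BQ.repr (b k) l = ((P' l k : ℤ) : ℚ) := by
    intro k l
    rw [hBQ, Module.Basis.repr_reindex_apply, ← hy, integralBasis_repr_apply, hP']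
    rfl
  have h1 : (b : ι → L) = (BQ : ι → L) ᵥ* (P'.map (Int.cast : ℤ → ℚ)).map (algebraMap ℚ L) := by
    funext k
    simp only [Matrix.vecMul, dotProduct, Matrix.map_apply]
    rw [← BQ.sum_repr (b k)]
    refine Finset.sum_congr rfl fun l _ => ?_
    rw [Algebra.smul_def, mul_comm, hrepr]
  have h2 : Algebra.discr ℚ BQ = ((NumberField.discr L : ℤ) : ℚ) := by
    rw [coe_discr, hBQ, Module.Basis.coe_reindex]
    exact Algebra.discr_reindex ℚ (integralBasis L) e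
  have h3 : Algebra.discr ℚ b = ((P'.det : ℤ) : ℚ) ^ 2 * ((NumberField.discr L : ℤ) : ℚ) := by
    rw [h1, Algebra.discr_of_matrix_vecMul, h2]
    congr 2
    exact ((Int.castRingHom ℚ).map_det P').symm
  have hdet : P'.det ≠ 0 := by
    intro h0
    have h4 := Algebra.discr_not_zero_of_basis ℚ b
    rw [h3, h0] at h4
    simp at h4
  rw [h3, abs_mul, abs_pow]
  have h5 : (1 : ℚ) ≤ |((P'.det : ℤ) : ℚ)| := by
    rw [← Int.cast_abs]
    exact_mod_cast Int.one_le_abs hdet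
  have h6 : (1 : ℚ) ≤ |((P'.det : ℤ) : ℚ)| ^ 2 := one_le_pow₀ h5
  exact le_mul_of_one_le_left (abs_nonneg _) h6

/-- the discriminant of a family with bounded conjugates -/
theorem discr_bound {L : Type} [Field L] [NumberField L] {ι : Type} [Fintype ι] [DecidableEq ι]
    (b : Module.Basis ι ℚ L) (β : ι → ℝ) (hβ : ∀ (τ : L →+* ℂ) (i : ι), ‖τ (b i)‖ ≤ β i) :
    ((|Algebra.discr ℚ b| : ℚ) : ℝ) ≤ ((Nat.factorial (Fintype.card ι) : ℝ) * ∏ i, β i) ^ 2 := by
  have hcard : Fintype.card ι = Fintype.card (L →ₐ[ℚ] ℂ) := by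
    rw [AlgHom.card, Module.finrank_eq_card_basis b]
  obtain ⟨e⟩ : Nonempty (ι ≃ (L →ₐ[ℚ] ℂ)) := ⟨Fintype.equivOfCardEq hcard⟩
  have h1 := Algebra.discr_eq_det_embeddingsMatrixReindex_pow_two ℚ ℂ (b : ι → L) e
  have h2 : ‖(Algebra.embeddingsMatrixReindex ℚ ℂ (b : ι → L) e).det‖ ≤
      (Nat.factorial (Fintype.card ι) : ℝ) * ∏ i, β i := by
    rw [Matrix.det_apply]
    refine (norm_sum_le _ _).trans ?_
    have h3 : ∀ σ ∈ (Finset.univ : Finset (Equiv.Perm ι)), ‖Equiv.Perm.sign σ •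
        ∏ i, Algebra.embeddingsMatrixReindex ℚ ℂ (b : ι → L) e (σ i) i‖ ≤ ∏ i, β i := by
      intro σ _
      have h4 : ‖Equiv.Perm.sign σ • ∏ i, Algebra.embeddingsMatrixReindex ℚ ℂ (b : ι → L) e (σ i) i‖ =
          ‖∏ i, Algebra.embeddingsMatrixReindex ℚ ℂ (b : ι → L) e (σ i) i‖ := by
        rcases Int.units_eq_one_or (Equiv.Perm.sign σ) with h | h <;> rw [h] <;> simp
      rw [h4, norm_prod, ← Equiv.prod_comp σ β]
      refine Finset.prod_le_prod (fun _ _ => norm_nonneg _) fun i _ => ?_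
      exact hβ ((e i : L →ₐ[ℚ] ℂ) : L →+* ℂ) (σ i)
    refine (Finset.sum_le_sum h3).trans (le_of_eq ?_)
    rw [Finset.sum_const, Finset.card_univ, Fintype.card_perm, nsmul_eq_mul]
  have h5 : ((|Algebra.discr ℚ b| : ℚ) : ℝ) = ‖(Algebra.embeddingsMatrixReindex ℚ ℂ (b : ι → L) e).det‖ ^ 2 := by
    rw [← norm_pow, ← h1]
    have h6 : (algebraMap ℚ ℂ) (Algebra.discr ℚ b) = (((Algebra.discr ℚ b : ℚ) : ℝ) : ℂ) := by
      rw [eq_ratCast]; norm_cast
    rw [h6, Complex.norm_real, Real.norm_eq_abs, Rat.cast_abs]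
  rw [h5]
  exact pow_le_pow_left₀ (norm_nonneg _) h2 2

instance algQb : Algebra.IsAlgebraic ℚ Qb := AlgebraicClosure.isAlgebraic ℚ

/-- every embedding of `L` extends to the algebraic closure -/
theorem ext_emb (L : IntermediateField ℚ Qb) (τ : L →+* ℂ) :
    ∃ φ : Qb →+* ℂ, ∀ x : L, φ (x : Qb) = τ x := by
  let _ : Algebra L ℂ := τ.toAlgebra
  have : Algebra.IsAlgebraic L Qb := Algebra.IsAlgebraic.tower_top (K := ℚ) L
  let φ : Qb →ₐ[L] ℂ := IsAlgClosed.lift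
  exact ⟨φ.toRingHom, fun x => φ.commutes x⟩

/-- the discriminant is bounded by means of a basis of small integers -/
theorem db_of_basis (L : IntermediateField ℚ Qb) [FiniteDimensional ℚ L] {ι : Type} [Fintype ι]
    [DecidableEq ι] (b : Module.Basis ι ℚ L) (hb : ∀ i, IsIntegral ℤ (b i)) (β : ι → ℝ)
    (hβ : ∀ i, Siz (b i : Qb) (β i)) :
    DB L (((Nat.factorial (Fintype.card ι) : ℝ) * ∏ i, β i) ^ 2) := by
  have : NumberField L := {}
  refine ⟨inferInstance, ?_⟩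
  have h1 := discr_le b hb
  have h2 := discr_bound b β (by
    intro τ i
    obtain ⟨φ, hφ⟩ := ext_emb L τ
    rw [← hφ]
    exact hβ i φ)
  have h4 : ((|NumberField.discr L| : ℤ) : ℝ) ≤ ((|Algebra.discr ℚ b| : ℚ) : ℝ) := by
    have h5 : ((|NumberField.discr L| : ℤ) : ℚ) ≤ |Algebra.discr ℚ b| := by
      rw [Int.cast_abs]; exact h1
    exact_mod_cast (Rat.cast_le (K := ℝ)).2 h5
  exact h4.trans h2

end Pool.Agent.D0H15.SF
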