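import Pool.Agent.D0H15.SF.Dsc

/-!
# Project SF, module SMF
-/

set_option autoImplicit false

open Polynomial NumberField Module IntermediateField

namespace Pool.Agent.D0H15.SF

open Pool.Agent.D0H41.SF

instance normQb : Normal ℚ Qb where
  toIsAlgebraic := algQb
  splits' := fun _ => IsAlgClosed.splits _

/-- an element fixed by all automorphisms is rational -/
theorem rat_of_fix (θ : Qb) (h : ∀ σ : Qb ≃ₐ[ℚ] Qb, σ θ = θ) :
    θ ∈ Set.range (algebraMap ℚ Qb) := by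
  by_contra hcon
  have h1 : θ ∉ (⊥ : Subalgebra ℚ Qb) := by
    rw [Algebra.mem_bot]
    exact hcon
  rw [notMem_iff_exists_ne_and_isConjRoot (Algebra.IsSeparable.isSeparable ℚ θ)
    (IsAlgClosed.splits _)] at h1
  obtain ⟨y, hy, hc⟩ := h1
  obtain ⟨σ, hσ⟩ := isConjRoot_iff_exists_algEquiv.1 hc
  exact hy (σ.injective (by rw [hσ, h σ])).symm

/-- a field with the full symmetric group is generated by each of its irrational elements -/
theorem gen (L : IntermediateField ℚ Qb) [FiniteDimensional ℚ L] (hS : Sym L) (θ : Qb)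
    (hL : θ ∈ L) (hθ : θ ∉ Set.range (algebraMap ℚ Qb)) : L = ℚ⟮θ⟯ := by
  classical
  obtain ⟨v0, hv0⟩ : ∃ v0 : L →ₐ[ℚ] Qb, ∀ z : L, v0 z = (z : Qb) := ⟨L.val, fun _ => rfl⟩
  have htop : ℚ⟮(⟨θ, hL⟩ : L)⟯ = ⊤ := by
    refine (Field.primitive_element_iff_algHom_eq_of_eval ℚ Qb (fun x => IsAlgClosed.splits _)
      (⟨θ, hL⟩ : L) v0).2 ?_
    intro ψ hψ
    by_contra hne
    refine hθ (rat_of_fix θ fun σ0 => ?_)
    have key : ∀ φ3 : L →ₐ[ℚ] Qb, φ3 ⟨θ, hL⟩ = θ := by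
      intro φ3
      by_cases h3 : φ3 = v0
      · rw [h3, hv0]
      · obtain ⟨σ, hσ⟩ := hS (Equiv.swap ψ φ3)
        have h4 := hσ v0
        rw [Equiv.swap_apply_of_ne_of_ne hne (fun h => h3 h.symm)] at h4
        have h5 := hσ ψ
        rw [Equiv.swap_apply_left] at h5
        have h6 : v0 ⟨θ, hL⟩ = σ (v0 ⟨θ, hL⟩) := by
          conv_lhs => rw [h4]
          rfl
        have h7 : φ3 ⟨θ, hL⟩ = σ (ψ ⟨θ, hL⟩) := by
          rw [h5]
          rfl
        rw [h7, ← hψ, ← h6, hv0]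
    have h8 := key (σ0.toAlgHom.comp v0)
    have h9 : (σ0.toAlgHom.comp v0) ⟨θ, hL⟩ = σ0 (v0 ⟨θ, hL⟩) := rfl
    rw [h9, hv0] at h8
    exact h8
  refine le_antisymm ?_ (adjoin_simple_le_iff.2 hL)
  intro y hy
  have h1 : (⟨y, hy⟩ : L) ∈ ℚ⟮(⟨θ, hL⟩ : L)⟯ := by rw [htop]; exact mem_top
  have h2 : ∀ z : L, z ∈ ℚ⟮(⟨θ, hL⟩ : L)⟯ → (z : Qb) ∈ ℚ⟮θ⟯ := by
    intro z hz
    refine adjoin_induction (E := L) (s := {(⟨θ, hL⟩ : L)}) ℚ (p := fun z _ => (z : Qb) ∈ ℚ⟮θ⟯)
      ?_ ?_ ?_ ?_ ?_ hz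
    · intro x hx
      rw [Set.mem_singleton_iff] at hx
      subst hx
      exact mem_adjoin_simple_self ℚ θ
    · intro x
      exact (ℚ⟮θ⟯).algebraMap_mem x
    · intro x y _ _ hx hy
      exact (ℚ⟮θ⟯).add_mem hx hy
    · intro x _ hx
      exact (ℚ⟮θ⟯).inv_mem hx
    · intro x y _ _ hx hy
      exact (ℚ⟮θ⟯).mul_mem hx hy
  exact h2 _ h1

theorem minpoly_map {θ : Qb} (hint : IsIntegral ℤ θ) :
    minpoly ℚ θ = (minpoly ℤ θ).map (algebraMap ℤ ℚ) :=
  minpoly.isIntegrallyClosed_eq_field_fractions' ℚ hint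

/-- the coefficients of the minimal polynomial of a small integer -/
theorem coeff_bd (θ : Qb) (hint : IsIntegral ℤ θ) (l : ℝ) (hl : Siz θ l) (i : ℕ) :
    |(((minpoly ℤ θ).coeff i : ℤ) : ℝ)| ≤
      l ^ ((minpoly ℤ θ).natDegree - i) * ((minpoly ℤ θ).natDegree.choose i : ℝ) := by
  have hintQ : IsIntegral ℚ θ := (algQb.isAlgebraic θ).isIntegral
  have hdeg : (minpoly ℚ θ).natDegree = (minpoly ℤ θ).natDegree := by
    rw [minpoly_map hint]
    exact (minpoly.monic hint).natDegree_map _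
  obtain ⟨φ0⟩ : Nonempty (Qb →ₐ[ℚ] ℂ) := ⟨IsAlgClosed.lift⟩
  have h1 := coeff_le_of_roots_le (p := minpoly ℚ θ) (f := algebraMap ℚ ℂ) (B := l) i
    (minpoly.monic hintQ) (IsAlgClosed.splits _) (by
      intro z hz
      have h2 : (minpoly ℚ θ).map (algebraMap ℚ ℂ) =
          ((minpoly ℚ θ).map (algebraMap ℚ Qb)).map (φ0 : Qb →+* ℂ) := by
        rw [Polynomial.map_map]
        congr 1
        exact (Subsingleton.elim _ _)
      rw [h2, (IsAlgClosed.splits ((minpoly ℚ θ).map (algebraMap ℚ Qb))).roots_map,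
        Multiset.mem_map] at hz
      obtain ⟨β, hβ, rfl⟩ := hz
      have h3 : aeval β (minpoly ℚ θ) = 0 := by
        have := (mem_roots'.1 hβ).2
        rwa [IsRoot.def, eval_map_algebraMap] at this
      have h4 : IsConjRoot ℚ θ β := (isConjRoot_iff_aeval_eq_zero hintQ).2 h3
      obtain ⟨σ, hσ⟩ := isConjRoot_iff_exists_algEquiv.1 h4
      have h5 := hl ((φ0 : Qb →+* ℂ).comp (σ.symm.toAlgHom : Qb →+* Qb))
      have h6 : ((φ0 : Qb →+* ℂ).comp (σ.symm.toAlgHom : Qb →+* Qb)) θ = φ0 β := by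
        rw [← hσ]
        simp
      rw [h6] at h5
      exact h5)
  rw [hdeg, coeff_map, minpoly_map hint, coeff_map] at h1
  have h2 : ‖(algebraMap ℚ ℂ) ((algebraMap ℤ ℚ) ((minpoly ℤ θ).coeff i))‖ =
      |(((minpoly ℤ θ).coeff i : ℤ) : ℝ)| := by
    simp
  rw [h2] at h1
  exact h1

open Classical in
/-- the fields generated by a root of the polynomial with coefficients `a` -/
noncomputable def flds (n : ℕ) (a : Fin n → ℤ) : Finset (IntermediateField ℚ Qb) :=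
  (((X ^ n + ∑ i : Fin n, C (a i) * X ^ (i : ℕ) : ℤ[X]).map
    (algebraMap ℤ Qb)).roots.toFinset).image (fun θ => ℚ⟮θ⟯)

theorem card_flds (n : ℕ) (a : Fin n → ℤ) : (flds n a).card ≤ n := by
  classical
  unfold flds
  refine Finset.card_image_le.trans ((Multiset.toFinset_card_le _).trans
    ((Polynomial.card_roots' _).trans (Polynomial.natDegree_map_le.trans ?_)))
  refine Polynomial.natDegree_add_le_of_degree_le (Polynomial.natDegree_X_pow_le n) ?_
  refine Polynomial.natDegree_sum_le_of_forall_le _ _ ?_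
  intro i _
  exact (Polynomial.natDegree_C_mul_X_pow_le _ _).trans i.2.le

/-- the box -/
noncomputable def box (n : ℕ) (l : ℝ) : Finset (Fin n → ℤ) :=
  Fintype.piFinset fun i => Finset.Icc (-⌊l ^ (n - (i : ℕ)) * (n.choose i : ℝ)⌋)
    ⌊l ^ (n - (i : ℕ)) * (n.choose i : ℝ)⌋

theorem sum_sub (n : ℕ) : ∑ i : Fin n, (n - (i : ℕ)) = n * (n + 1) / 2 := by
  rw [Fin.sum_univ_eq_sum_range (fun i => n - i) n]
  have h1 : ∑ i ∈ Finset.range n, (n - i) = ∑ i ∈ Finset.range n, (i + 1) := by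
    rw [← Finset.sum_range_reflect]
    refine Finset.sum_congr rfl fun i hi => ?_
    rw [Finset.mem_range] at hi
    omega
  have h2 : (∑ i ∈ Finset.range n, (i + 1)) = ∑ i ∈ Finset.range (n + 1), i := by
    rw [Finset.sum_range_succ' (fun i => i) n]
    simp
  rw [h1, h2, Finset.sum_range_id, Nat.add_sub_cancel, mul_comm]

theorem card_box (n : ℕ) (l : ℝ) (hl : 1 ≤ l) :
    ((box n l).card : ℝ) ≤ (∏ i : Fin n, (3 * (n.choose i : ℝ))) * l ^ (n * (n + 1) / 2) := by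
  unfold box
  rw [Fintype.card_piFinset, Nat.cast_prod, ← sum_sub, ← Finset.prod_pow_eq_pow_sum,
    ← Finset.prod_mul_distrib]
  refine Finset.prod_le_prod (fun _ _ => Nat.cast_nonneg _) fun i _ => ?_
  have hB : (1 : ℝ) ≤ l ^ (n - (i : ℕ)) * (n.choose i : ℝ) := by
    have h1 : (1 : ℝ) ≤ l ^ (n - (i : ℕ)) := one_le_pow₀ hl
    have h2 : (1 : ℝ) ≤ (n.choose i : ℝ) := by
      exact_mod_cast Nat.choose_pos i.2.le
    nlinarith
  have h0 : (0 : ℤ) ≤ ⌊l ^ (n - (i : ℕ)) * (n.choose i : ℝ)⌋ := Int.floor_nonneg.2 (by linarith)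
  rw [Int.card_Icc]
  have h1 : ((⌊l ^ (n - (i : ℕ)) * (n.choose i : ℝ)⌋ + 1 -
      -⌊l ^ (n - (i : ℕ)) * (n.choose i : ℝ)⌋).toNat : ℝ) =
      2 * (⌊l ^ (n - (i : ℕ)) * (n.choose i : ℝ)⌋ : ℝ) + 1 := by
    have h2 : (((⌊l ^ (n - (i : ℕ)) * (n.choose i : ℝ)⌋ + 1 -
      -⌊l ^ (n - (i : ℕ)) * (n.choose i : ℝ)⌋).toNat : ℤ) : ℝ) =
      ((2 * ⌊l ^ (n - (i : ℕ)) * (n.choose i : ℝ)⌋ + 1 : ℤ) : ℝ) := by
      congr 1
      rw [Int.toNat_of_nonneg (by omega)]
      ring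
    push_cast at h2
    exact h2
  rw [h1]
  have h2 := Int.floor_le (l ^ (n - (i : ℕ)) * (n.choose i : ℝ))
  linarith

theorem t_SMF : S_SMF := by
  classical
  intro n hn
  refine ⟨n * ∏ i : Fin n, (3 * (n.choose i : ℝ)), ?_, ?_⟩
  · have h1 : (0 : ℝ) < n := by exact_mod_cast (by omega : 0 < n)
    refine mul_pos h1 (Finset.prod_pos fun i _ => ?_)
    have h2 : (0 : ℝ) < (n.choose i : ℝ) := by exact_mod_cast Nat.choose_pos i.2.le
    linarith
  intro l hl
  have hsub : {L : IntermediateField ℚ Qb | Module.finrank ℚ L = n ∧ Sym L ∧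
      ∃ θ ∈ L, IsIntegral ℤ θ ∧ θ ∉ Set.range (algebraMap ℚ Qb) ∧ Siz θ l} ⊆
      ((box n l).biUnion (flds n) : Finset (IntermediateField ℚ Qb)) := by
    rintro L ⟨hfin, hS, θ, hθL, hint, hirr, hsiz⟩
    have : FiniteDimensional ℚ L := FiniteDimensional.of_finrank_pos (by omega)
    have hLθ := gen L hS θ hθL hirr
    have hintQ : IsIntegral ℚ θ := (algQb.isAlgebraic θ).isIntegral
    have hdegQ : (minpoly ℚ θ).natDegree = n := by
      rw [← IntermediateField.adjoin.finrank hintQ, ← hLθ]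
      exact hfin
    have hdeg : (minpoly ℤ θ).natDegree = n := by
      rw [← hdegQ, minpoly_map hint]
      exact ((minpoly.monic hint).natDegree_map _).symm
    simp only [Finset.coe_biUnion, Set.mem_iUnion, Finset.mem_coe]
    refine ⟨fun i => (minpoly ℤ θ).coeff i, ?_, ?_⟩
    · unfold box
      rw [Fintype.mem_piFinset]
      intro i
      have h1 := coeff_bd θ hint l hsiz i
      rw [hdeg, abs_le] at h1
      rw [Finset.mem_Icc]
      constructor
      · rw [neg_le, Int.le_floor]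
        push_cast
        linarith [h1.1]
      · rw [Int.le_floor]
        exact h1.2
    · unfold flds
      rw [Finset.mem_image]
      refine ⟨θ, ?_, hLθ.symm⟩
      have hp : (X ^ n + ∑ i : Fin n, C ((minpoly ℤ θ).coeff i) * X ^ (i : ℕ) : ℤ[X]) =
          minpoly ℤ θ := by
        conv_rhs => rw [(minpoly.monic hint).as_sum, hdeg]
        rw [Fin.sum_univ_eq_sum_range (fun i => C ((minpoly ℤ θ).coeff i) * X ^ i) n]
      rw [hp, Multiset.mem_toFinset, mem_roots', IsRoot.def, eval_map_algebraMap, minpoly.aeval]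
      refine ⟨?_, rfl⟩
      exact (Monic.map _ (minpoly.monic hint)).ne_zero
  refine ⟨(Finset.finite_toSet _).subset hsub, ?_⟩
  have h1 := Set.ncard_le_ncard hsub (Finset.finite_toSet _)
  rw [Set.ncard_coe_finset] at h1
  have h2 : ((box n l).biUnion (flds n)).card ≤ (box n l).card * n :=
    Finset.card_biUnion_le_card_mul _ _ _ fun a _ => card_flds n a
  have h3 := card_box n l hl
  calc _ ≤ (((box n l).card * n : ℕ) : ℝ) := by exact_mod_cast h1.trans h2
    _ = n * ((box n l).card : ℝ) := by push_cast; ring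
    _ ≤ n * ((∏ i : Fin n, (3 * (n.choose i : ℝ))) * l ^ (n * (n + 1) / 2)) :=
        mul_le_mul_of_nonneg_left h3 (Nat.cast_nonneg _)
    _ = _ := by ring

end Pool.Agent.D0H15.SF
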